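import Pool.Agent.U168.UQ.Stm
import Pool.Agent.H604C.P_HNT

set_option autoImplicit false

namespace Pool.Agent.U123.UQ

open NumberField IsDedekindDomain Polynomial CohNT

/-- `X² + 7 Y² + 1 = 0` modulo an odd prime `p ≠ 7`. -/
lemma exists_mod (p : ℕ) [hp : Fact p.Prime] (h2 : p ≠ 2) (h7 : p ≠ 7) :
    ∃ X Y : ℤ, (p : ℤ) ∣ X ^ 2 + 7 * Y ^ 2 + 1 := by
  have h7' : (7 : ZMod p) ≠ 0 := by
    intro h
    have h1 : ((7 : ℕ) : ZMod p) = 0 := by exact_mod_cast h
    rw [ZMod.natCast_eq_zero_iff] at h1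
    exact h7 ((Nat.prime_dvd_prime_iff_eq hp.out (by norm_num)).1 h1)
  have hc : Fintype.card (ZMod p) % 2 = 1 := by
    rw [ZMod.card]
    exact hp.out.eq_two_or_odd.resolve_left h2
  obtain ⟨a, b, hab⟩ := FiniteField.exists_root_sum_quadratic (R := ZMod p)
    (f := X ^ 2) (g := C 7 * X ^ 2 + C 1) (degree_X_pow 2) (by
      have := degree_quadratic (a := (7 : ZMod p)) (b := 0) (c := 1) h7'
      simpa using this) hc
  refine ⟨a.cast, b.cast, ?_⟩
  rw [← ZMod.intCast_zmod_eq_zero_iff_dvd]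
  push_cast
  simp only [eval_add, eval_mul, eval_pow, eval_X, eval_C] at hab
  linear_combination hab

section

variable {E : Type} [Field E] [NumberField E]

lemma val_int_le (v : Pr E) (n : ℤ) : v.valuation E (n : E) ≤ 1 := by
  have := v.valuation_le_one (K := E) (n : 𝓞 E)
  simpa using this

/-- the residue characteristic -/
lemma exists_char (v : Pr E) : ∃ p : ℕ, p.Prime ∧ v.valuation E (p : E) < 1 := by
  have h1 : (Ideal.absNorm v.asIdeal : 𝓞 E) ∈ v.asIdeal := Ideal.absNorm_mem _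
  have h0 : Ideal.absNorm v.asIdeal ≠ 0 := by
    rw [Ne, Ideal.absNorm_eq_zero_iff]
    exact v.ne_bot
  have key : ∀ n : ℕ, n ≠ 0 → ((n : 𝓞 E) ∈ v.asIdeal) → ∃ p : ℕ, p.Prime ∧ (p : 𝓞 E) ∈ v.asIdeal := by
    intro n
    induction n using Nat.recOnMul with
    | zero => intro h; exact absurd rfl h
    | one =>
      intro _ h
      exfalso
      apply v.isPrime.ne_top
      rw [Ideal.eq_top_iff_one]
      simpa using h
    | prime p hp => intro _ h; exact ⟨p, hp, h⟩
    | mul a b iha ihb =>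
      intro h0 h
      push_cast at h
      rcases v.isPrime.mem_or_mem h with h | h
      · exact iha (fun h => h0 (by rw [h, zero_mul])) h
      · exact ihb (fun h => h0 (by rw [h, mul_zero])) h
  obtain ⟨p, hp, h⟩ := key _ h0 h1
  refine ⟨p, hp, ?_⟩
  have := (v.valuation_lt_one_iff_mem (K := E) (p : 𝓞 E)).2 h
  simpa using this

lemma val_eq_one_of (v : Pr E) (x y : E) (hx : v.valuation E x = 1) (hy : v.valuation E y < 1) :
    v.valuation E (x + y) = 1 := by
  rw [← hx] at hy ⊢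
  exact Valuation.map_add_eq_of_lt_left _ hy

/-- local conditions -/
lemma neg_one_norm (s : E) (hs : s ^ 2 = 5) (hne : ¬ Nonempty (E →+* ℝ)) :
    ∃ X Y : E, (-1 : E) = X ^ 2 + 7 * Y ^ 2 := by
  have h := HNT (E := E) (-1) (-7) (by norm_num) (by norm_num) (fun φ => absurd ⟨φ⟩ hne) ?_ ?_
  · obtain ⟨X, Y, h⟩ := h
    exact ⟨X, Y, by linear_combination h⟩
  · intro v hv
    have hv2 : v.valuation E (2 : E) < 1 := hv
    have hv0 : v.valuation E (2 : E) ≠ 0 := by
      rw [Ne, map_eq_zero]; norm_num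
    have h7 : v.valuation E (7 : E) = 1 := by
      have : (7 : E) = 1 + 2 * 3 := by norm_num
      rw [this]
      apply val_eq_one_of v _ _ (map_one _)
      rw [map_mul]
      have h3 : v.valuation E (3 : E) ≤ 1 := by exact_mod_cast val_int_le v 3
      calc _ ≤ v.valuation E (2 : E) * 1 := by gcongr
        _ < 1 := by rwa [mul_one]
    refine ⟨5, ?_⟩
    have e1 : (-7 - 5 ^ 2 : E) = -(2 ^ 5) := by norm_num
    have e2 : (4 * -7 : E) = -(2 ^ 2 * 7) := by norm_num
    rw [e1, e2, Valuation.map_neg, Valuation.map_neg, map_pow, map_mul, map_pow, h7, mul_one]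
    exact pow_lt_pow_right_of_lt_one₀ (zero_lt_iff.2 hv0) hv2 (by norm_num)
  · intro v hv
    have hv2 : v.valuation E (2 : E) = 1 := by
      have h1 : v.valuation E (2 : E) ≤ 1 := by exact_mod_cast val_int_le v 2
      exact le_antisymm h1 (not_lt.1 hv)
    have hv4 : v.valuation E (4 : E) = 1 := by
      have : (4 : E) = 2 ^ 2 := by norm_num
      rw [this, map_pow, hv2, one_pow]
    have hv7 : v.valuation E (7 : E) ≤ 1 := by exact_mod_cast val_int_le v 7
    rcases lt_or_eq_of_le hv7 with h7 | h7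
    · refine ⟨1, 0, by norm_num, 2 * s, ?_⟩
      have e1 : (-1 * (1 ^ 2 - -7 * 0 ^ 2) - (2 * s) ^ 2 : E) = -(7 * 3) := by
        linear_combination (-4) * hs
      have e2 : (4 * (-1 * (1 ^ 2 - -7 * 0 ^ 2)) : E) = - 4 := by norm_num
      rw [e1, e2, Valuation.map_neg, Valuation.map_neg, hv4, map_mul]
      have h3 : v.valuation E (3 : E) ≤ 1 := by exact_mod_cast val_int_le v 3
      calc _ ≤ v.valuation E (7 : E) * 1 := by gcongr
        _ < 1 := by rwa [mul_one]
    · obtain ⟨p, hp, hvp⟩ := exists_char v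
      have hp2 : p ≠ 2 := by
        rintro rfl
        have : v.valuation E (2 : E) < 1 := by exact_mod_cast hvp
        rw [hv2] at this
        exact lt_irrefl _ this
      have hp7 : p ≠ 7 := by
        rintro rfl
        have : v.valuation E (7 : E) < 1 := by exact_mod_cast hvp
        rw [h7] at this
        exact lt_irrefl _ this
      have : Fact p.Prime := ⟨hp⟩
      obtain ⟨X, Y, n, hn⟩ := exists_mod p hp2 hp7
      have hn' : ((X : E) ^ 2 + 7 * (Y : E) ^ 2 + 1) = p * n := by exact_mod_cast congrArg (Int.cast : ℤ → E) hn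
      have hlt : v.valuation E ((p : E) * n) < 1 := by
        rw [map_mul]
        calc _ ≤ v.valuation E (p : E) * 1 := by gcongr; exact val_int_le v n
          _ < 1 := by rwa [mul_one]
      have hN : v.valuation E ((X : E) ^ 2 + 7 * (Y : E) ^ 2) = 1 := by
        have : ((X : E) ^ 2 + 7 * (Y : E) ^ 2) = -1 + p * n := by linear_combination hn'
        rw [this]
        exact val_eq_one_of v _ _ (by rw [Valuation.map_neg, map_one]) hlt
      refine ⟨X, Y, ?_, 1, ?_⟩
      · intro h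
        have : ((X : E) ^ 2 + 7 * (Y : E) ^ 2) = 0 := by linear_combination h
        rw [this, map_zero] at hN
        exact zero_ne_one hN
      · have e1 : (-1 * ((X : E) ^ 2 - -7 * (Y : E) ^ 2) - 1 ^ 2 : E) = -(p * n) := by
          linear_combination (-1) * hn'
        have e2 : (4 * (-1 * ((X : E) ^ 2 - -7 * (Y : E) ^ 2)) : E) = -(4 * ((X : E) ^ 2 + 7 * (Y : E) ^ 2)) := by ring
        rw [e1, e2, Valuation.map_neg, Valuation.map_neg, map_mul (v.valuation E) (4 : E), hv4, hN, mul_one]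
        exact hlt

end

section

variable {K : Type} [Field K] (a : K)

lemma alg_re (q : K) : (algebraMap K (QuadraticAlgebra K a 0) q).re = q := rfl

lemma alg_im (q : K) : (algebraMap K (QuadraticAlgebra K a 0) q).im = 0 := rfl

lemma w_sq : (⟨0, 1⟩ : QuadraticAlgebra K a 0) ^ 2 = algebraMap K _ a := by
  rw [sq]
  ext
  · rw [alg_re, QuadraticAlgebra.re_mul]; ring
  · rw [alg_im, QuadraticAlgebra.im_mul]; ring

end

theorem t_HN : Pool.Agent.U168.UQ.S_HN := by
  intro K _ _ r s hr hs hK α hα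
  obtain ⟨φ₀⟩ := hK
  have hns : ∀ q : K, q ^ 2 ≠ -α + 0 * q := by
    intro q h
    have h1 : φ₀ q ^ 2 = - φ₀ α := by
      rw [← map_pow, h]; simp
    have := hα φ₀
    nlinarith [sq_nonneg (φ₀ q)]
  have : Fact (∀ q : K, q ^ 2 ≠ -α + 0 * q) := ⟨hns⟩
  have : CharZero (QuadraticAlgebra K (-α) 0) := inferInstance
  have : Module.Finite K (QuadraticAlgebra K (-α) 0) := inferInstance
  have : Module.Finite ℚ (QuadraticAlgebra K (-α) 0) :=
    Module.Finite.trans K (QuadraticAlgebra K (-α) 0)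
  have : NumberField (QuadraticAlgebra K (-α) 0) :=
    { to_charZero := inferInstance, to_finiteDimensional := inferInstance }
  have hne : ¬ Nonempty (QuadraticAlgebra K (-α) 0 →+* ℝ) := by
    rintro ⟨ψ⟩
    have h1 : ψ ⟨0, 1⟩ ^ 2 = (ψ.comp (algebraMap K (QuadraticAlgebra K (-α) 0))) (-α) := by
      rw [← map_pow, w_sq]; rfl
    rw [map_neg] at h1
    have := hα (ψ.comp (algebraMap K (QuadraticAlgebra K (-α) 0)))
    nlinarith [sq_nonneg (ψ ⟨0, 1⟩)]
  obtain ⟨X, Y, hXY⟩ := neg_one_norm (E := QuadraticAlgebra K (-α) 0)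
    (algebraMap K (QuadraticAlgebra K (-α) 0) s) (by rw [← map_pow, hs, map_ofNat]) hne
  have h7 : (7 : QuadraticAlgebra K (-α) 0) = algebraMap K (QuadraticAlgebra K (-α) 0) 7 := by
    rw [map_ofNat]
  rw [h7, sq, sq] at hXY
  have hre := congrArg QuadraticAlgebra.re hXY
  have him := congrArg QuadraticAlgebra.im hXY
  rw [QuadraticAlgebra.re_add, QuadraticAlgebra.re_mul, QuadraticAlgebra.re_mul, alg_re, alg_im,
    QuadraticAlgebra.re_mul, QuadraticAlgebra.re_neg, QuadraticAlgebra.re_one] at hre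
  rw [QuadraticAlgebra.im_add, QuadraticAlgebra.im_mul, QuadraticAlgebra.im_mul, alg_re, alg_im,
    QuadraticAlgebra.im_mul, QuadraticAlgebra.im_neg, QuadraticAlgebra.im_one] at him
  set x0 := X.re
  set x1 := X.im
  set y0 := Y.re
  set y1 := Y.im
  have h1 : 1 + x0 ^ 2 + 7 * y0 ^ 2 = α * (x1 ^ 2 + 7 * y1 ^ 2) := by
    linear_combination (-1) * hre
  have h2 : x0 * x1 + 7 * y0 * y1 = 0 := by
    have : (2 : K) * (x0 * x1 + 7 * y0 * y1) = 0 := by linear_combination (-1) * him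
    exact (mul_eq_zero.1 this).resolve_left two_ne_zero
  have hn : x1 ^ 2 + 7 * y1 ^ 2 ≠ 0 := by
    intro h
    rw [h, mul_zero] at h1
    have h3 := congrArg φ₀ h1
    simp only [map_add, map_mul, map_pow, map_one, map_zero, map_ofNat] at h3
    nlinarith [sq_nonneg (φ₀ x0), sq_nonneg (φ₀ y0)]
  refine ⟨x1 / (x1 ^ 2 + 7 * y1 ^ 2),
    (s * y1 + r * (x0 * y1 - x1 * y0)) / (x1 ^ 2 + 7 * y1 ^ 2),
    (r * y1 - s * (x0 * y1 - x1 * y0)) / (x1 ^ 2 + 7 * y1 ^ 2), ?_⟩
  have h3 : α * (x1 ^ 2 + 7 * y1 ^ 2) ^ 2 = x1 ^ 2 + (s * y1 + r * (x0 * y1 - x1 * y0)) ^ 2 +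
      (r * y1 - s * (x0 * y1 - x1 * y0)) ^ 2 := by
    linear_combination (-(x1 ^ 2 + 7 * y1 ^ 2)) * h1 + (x0 * x1 + 7 * y0 * y1) * h2 -
      (y1 ^ 2 + (x0 * y1 - x1 * y0) ^ 2) * (hs + hr)
  rw [div_pow, div_pow, div_pow, ← add_div, ← add_div, ← h3]
  field_simp

end Pool.Agent.U123.UQ
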